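import Pool.Agent.Lib_helper19.PolyPre.Defs
import Pool.Agent.PB57.All

/-!
# Polyhedral Banach spaces and isometric preduals of `ℓ₁`: lemmas
-/

set_option autoImplicit false

open Set Filter Topology Metric

universe u v

namespace PolyPre

section copy

variable {X : Type u} [NormedAddCommGroup X] [NormedSpace ℝ X]

/-- a separable normed space is isometric to a subspace of a sequence space -/
theorem exists_copy (X : Type u) [NormedAddCommGroup X] [NormedSpace ℝ X]
    [TopologicalSpace.SeparableSpace X] :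
    ∃ (Z : Type) (_ : NormedAddCommGroup Z) (_ : NormedSpace ℝ Z), Nonempty (X ≃ₗᵢ[ℝ] Z) := by
  classical
  let w : ℕ → X := TopologicalSpace.denseSeq X
  choose g hg1 hg2 using fun n => exists_dual_vector'' ℝ (w n)
  have hle : ∀ n x, ‖g n x‖ ≤ ‖x‖ := fun n x => by
    have h1 := (g n).le_opNorm x
    have h2 := mul_le_mul_of_nonneg_right (hg1 n) (norm_nonneg x)
    linarith
  let ψ : X →ₗ[ℝ] BoundedContinuousFunction ℕ ℝ :=
    { toFun := fun x => BoundedContinuousFunction.ofNormedAddCommGroupDiscrete
        (fun n => g n x) ‖x‖ fun n => hle n x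
      map_add' := fun x y => by ext n; simp
      map_smul' := fun c x => by ext n; simp }
  have hψ : ∀ x, ‖ψ x‖ = ‖x‖ := by
    intro x
    refine le_antisymm ?_ ?_
    · rw [BoundedContinuousFunction.norm_le (norm_nonneg x)]
      intro n
      exact hle n x
    · refine le_of_forall_pos_le_add fun ε hε => ?_
      obtain ⟨n, hn⟩ := (TopologicalSpace.denseRange_denseSeq X).exists_dist_lt x
        (show (0 : ℝ) < ε / 2 by positivity)
      have h1 : ‖ψ x n‖ ≤ ‖ψ x‖ := BoundedContinuousFunction.norm_coe_le_norm _ _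
      have h2 : ψ x n = g n x := rfl
      have h3 : ‖w n‖ ≤ ‖g n x‖ + ‖x - w n‖ := by
        have h4 : g n (w n) = g n x - g n (x - w n) := by rw [map_sub]; ring
        have h5 : ‖w n‖ = g n (w n) := by
          have := hg2 n
          simpa using this.symm
        rw [h5, h4]
        have h6 := hle n (x - w n)
        have h7 : g n x ≤ ‖g n x‖ := Real.le_norm_self _
        have h8 : -g n (x - w n) ≤ ‖g n (x - w n)‖ := by
          rw [← norm_neg]
          exact Real.le_norm_self _
        linarith
      have h4 : ‖x‖ ≤ ‖w n‖ + ‖x - w n‖ := by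
        have := norm_add_le (w n) (x - w n)
        rwa [add_sub_cancel] at this
      rw [dist_eq_norm] at hn
      change ‖x - w n‖ < ε / 2 at hn
      rw [h2] at h1
      linarith
  let Ψ : X →ₗᵢ[ℝ] BoundedContinuousFunction ℕ ℝ := ⟨ψ, hψ⟩
  exact ⟨LinearMap.range Ψ.toLinearMap, inferInstance, inferInstance, ⟨Ψ.equivRange⟩⟩

end copy

section iso

variable {X : Type u} [NormedAddCommGroup X] [NormedSpace ℝ X]
variable {Y : Type v} [NormedAddCommGroup Y] [NormedSpace ℝ Y]

/-- polyhedrality is invariant under isometric isomorphisms -/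
theorem IsPolyhedral.congr (h : IsPolyhedral X) (e : X ≃ₗᵢ[ℝ] Y) : IsPolyhedral Y := by
  intro F hF
  let G : Submodule ℝ X := F.map (e.symm.toLinearEquiv : Y →ₗ[ℝ] X)
  let e' : F ≃ₗᵢ[ℝ] G := LinearIsometryEquiv.submoduleMap F e.symm
  have hG : FiniteDimensional ℝ G := LinearEquiv.finiteDimensional e'.toLinearEquiv
  obtain ⟨s, hs, hb⟩ := h G hG
  refine ⟨e'.symm '' s, hs.image _, ?_⟩
  have h1 : Metric.closedBall (0 : F) 1 = e'.symm '' Metric.closedBall (0 : G) 1 := by
    rw [e'.symm.image_closedBall, map_zero]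
  rw [h1, hb]
  exact LinearMap.image_convexHull (e'.symm.toLinearEquiv : G →ₗ[ℝ] F) s

theorem IsPolyhedral.poly {X : Type} [NormedAddCommGroup X] [NormedSpace ℝ X]
    (h : IsPolyhedral X) : PB.Poly X := by
  intro E hE
  obtain ⟨s, hs, hb⟩ := h E hE
  rw [hb]
  exact hs.subset extremePoints_convexHull_subset

end iso

/-- The main theorem, with the space in any universe. -/
theorem embeds_of_isPolyhedral (X : Type u) [NormedAddCommGroup X] [NormedSpace ℝ X]
    [CompleteSpace X] [TopologicalSpace.SeparableSpace X] (h : IsPolyhedral X) :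
    ∃ (Y : Type) (_ : NormedAddCommGroup Y) (_ : NormedSpace ℝ Y) (_ : CompleteSpace Y),
      IsIsometricPredual Y ∧ IsomorphicToSubspace X Y := by
  obtain ⟨Z, _, _, ⟨e⟩⟩ := exists_copy X
  have hc : CompleteSpace Z :=
    (e.isometry.isUniformInducing.completeSpace_congr e.surjective).1 inferInstance
  have hs : TopologicalSpace.SeparableSpace Z :=
    e.surjective.denseRange.separableSpace e.continuous
  obtain ⟨Y, _, _, _, hY, T, c, hc0, hT⟩ := PB.main Z (h.congr e).poly
  have hb : ∀ x : X, c * ‖x‖ ≤ ‖T (e x)‖ := fun x => by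
    have := hT (e x)
    rwa [e.norm_map] at this
  refine ⟨Y, inferInstance, inferInstance, inferInstance, hY,
    T.comp (e.toContinuousLinearEquiv : X →L[ℝ] Z), ?_, ?_, c⁻¹, ?_⟩
  · intro x y hxy
    have h1 : T (e (x - y)) = 0 := by
      have : T (e x) = T (e y) := hxy
      rw [map_sub, map_sub, this, sub_self]
    have h2 := hb (x - y)
    rw [h1, norm_zero] at h2
    have h3 : ‖x - y‖ ≤ 0 := by
      by_contra h4
      push Not at h4
      nlinarith
    exact sub_eq_zero.1 (norm_le_zero_iff.1 h3)
  · have hanti : AntilipschitzWith (Real.toNNReal c⁻¹)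
        (T.comp (e.toContinuousLinearEquiv : X →L[ℝ] Z)) := by
      refine AddMonoidHomClass.antilipschitz_of_bound _ fun x => ?_
      rw [Real.coe_toNNReal _ (inv_nonneg.2 hc0.le)]
      have := hb x
      rw [inv_mul_eq_div, le_div_iff₀ hc0]
      have h2 : T (e x) = (T.comp (e.toContinuousLinearEquiv : X →L[ℝ] Z)) x := rfl
      rw [← h2]
      linarith [this, mul_comm c ‖x‖]
    exact hanti.isClosed_range
      (T.comp (e.toContinuousLinearEquiv : X →L[ℝ] Z)).uniformContinuous
  · intro x
    have := hb x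
    rw [inv_mul_eq_div, le_div_iff₀ hc0]
    have h2 : T (e x) = (T.comp (e.toContinuousLinearEquiv : X →L[ℝ] Z)) x := rfl
    rw [← h2]
    linarith [mul_comm c ‖x‖]

end PolyPre
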