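import Pool.Agent.Lib_helper19.PolyPre.Basic

/-!
# The converse: subspaces of isometric preduals of `ℓ₁` are isomorphically polyhedral
-/

set_option autoImplicit false

open Set Filter Topology Metric

universe u v

namespace PolyPre

/-- `X` has a countable James boundary. -/
def CountableBoundary (X : Type u) [NormedAddCommGroup X] [NormedSpace ℝ X] : Prop :=
  ∃ f : ℕ → (X →L[ℝ] ℝ), (∀ i, ‖f i‖ ≤ 1) ∧ ∀ x, ∃ i, f i x = ‖x‖

section pre

variable {Y : Type u} [NormedAddCommGroup Y] [NormedSpace ℝ Y]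

/-- the biorthogonal functionals of an isometric predual of `ℓ₁` are a James boundary up to signs -/
theorem exists_norming (φ : (Y →L[ℝ] ℝ) ≃ₗᵢ[ℝ] lp (fun _ : ℕ => ℝ) 1) (y : Y) :
    ∃ n : ℕ, |φ.symm (lp.single 1 n (1 : ℝ)) y| = ‖y‖ := by
  set b : ℕ → (Y →L[ℝ] ℝ) := fun n => φ.symm (lp.single 1 n (1 : ℝ)) with hb
  have hb1 : ∀ n, ‖b n‖ ≤ 1 := by
    intro n
    rw [hb]
    simp only [LinearIsometryEquiv.norm_map]
    rw [lp.norm_single (by simp)]
    simp
  have hle : ∀ n, |b n y| ≤ ‖y‖ := by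
    intro n
    have h1 := (b n).le_opNorm y
    have h2 := mul_le_mul_of_nonneg_right (hb1 n) (norm_nonneg y)
    rw [Real.norm_eq_abs] at h1
    linarith
  by_cases hy : y = 0
  · exact ⟨0, by rw [hy, map_zero, abs_zero, norm_zero]⟩
  by_contra hcon
  push Not at hcon
  have hlt : ∀ n, |b n y| < ‖y‖ := fun n => lt_of_le_of_ne (hle n) (hcon n)
  obtain ⟨f, hf1, hf2⟩ := exists_dual_vector'' ℝ y
  have hf2' : f y = ‖y‖ := by simpa using hf2
  set c := φ f with hc
  have hcn : ‖c‖ ≤ 1 := by rw [hc, LinearIsometryEquiv.norm_map]; exact hf1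
  have hs : HasSum (fun n => |c n|) ‖c‖ := by
    have := lp.hasSum_norm (p := 1) (by simp) c
    simpa using this
  have h1 : HasSum (fun n => lp.single 1 n (c n : ℝ)) c := lp.hasSum_single (by simp) c
  have h2 : HasSum (fun n => φ.symm (lp.single 1 n (c n : ℝ))) (φ.symm c) :=
    h1.mapL (φ.symm.toContinuousLinearEquiv : lp (fun _ : ℕ => ℝ) 1 →L[ℝ] (Y →L[ℝ] ℝ))
  have h3 : ∀ n, φ.symm (lp.single 1 n (c n : ℝ)) = c n • b n := by
    intro n
    have : (lp.single 1 n (c n : ℝ) : lp (fun _ : ℕ => ℝ) 1) = c n • lp.single 1 n (1 : ℝ) := by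
      rw [← lp.single_smul]
      simp
    rw [this, map_smul]
  have h4 : HasSum (fun n => c n * b n y) (f y) := by
    have h5 := h2.mapL (ContinuousLinearMap.apply ℝ ℝ y)
    simp only [h3] at h5
    have h6 : φ.symm c = f := by rw [hc, LinearIsometryEquiv.symm_apply_apply]
    rw [h6] at h5
    simpa using h5
  have h5 : HasSum (fun n => |c n| * ‖y‖) (‖c‖ * ‖y‖) := hs.mul_right _
  have hy0 : 0 < ‖y‖ := norm_pos_iff.2 hy
  obtain ⟨m, hm⟩ : ∃ m, c m ≠ 0 := by
    by_contra hcc
    push Not at hcc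
    have : c = 0 := by
      ext n
      exact hcc n
    have hf0 : f = 0 := by
      have h7 : φ f = 0 := by rw [← hc, this]
      exact (LinearIsometryEquiv.map_eq_zero_iff φ).1 h7
    rw [hf0] at hf2'
    simp at hf2'
    exact hy (norm_eq_zero.1 hf2'.symm)
  have h6 : ∀ n, c n * b n y ≤ |c n| * ‖y‖ := by
    intro n
    calc c n * b n y ≤ |c n * b n y| := le_abs_self _
      _ = |c n| * |b n y| := abs_mul _ _
      _ ≤ |c n| * ‖y‖ := mul_le_mul_of_nonneg_left (hle n) (abs_nonneg _)
  have h7 : c m * b m y < |c m| * ‖y‖ := by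
    calc c m * b m y ≤ |c m * b m y| := le_abs_self _
      _ = |c m| * |b m y| := abs_mul _ _
      _ < |c m| * ‖y‖ := mul_lt_mul_of_pos_left (hlt m) (abs_pos.2 hm)
  have h8 := hasSum_lt h6 h7 h4 h5
  rw [hf2'] at h8
  nlinarith

end pre

section bdry

variable {X : Type u} [NormedAddCommGroup X] [NormedSpace ℝ X]
variable {Y : Type v} [NormedAddCommGroup Y] [NormedSpace ℝ Y]

theorem CountableBoundary.of_isometry (h : CountableBoundary Y) (T : X →ₗᵢ[ℝ] Y) :
    CountableBoundary X := by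
  obtain ⟨f, hf, hb⟩ := h
  refine ⟨fun i => (f i).comp T.toContinuousLinearMap, fun i => ?_, fun x => ?_⟩
  · refine ContinuousLinearMap.opNorm_le_bound _ zero_le_one fun x => ?_
    have h1 := (f i).le_opNorm (T x)
    have h2 := mul_le_mul_of_nonneg_right (hf i) (norm_nonneg (T x))
    rw [T.norm_map] at h1 h2
    exact h1.trans h2
  · obtain ⟨i, hi⟩ := hb (T x)
    exact ⟨i, by rw [← T.norm_map x, ← hi]; rfl⟩

theorem IsIsometricPredual.countableBoundary (h : IsIsometricPredual Y) :
    CountableBoundary Y := by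
  obtain ⟨φ⟩ := h
  refine ⟨fun k => (-1 : ℝ) ^ k • φ.symm (lp.single 1 (k / 2) (1 : ℝ)), fun k => ?_, fun y => ?_⟩
  · rw [norm_smul, LinearIsometryEquiv.norm_map, lp.norm_single (by simp)]
    simp
  · obtain ⟨n, hn⟩ := exists_norming φ y
    rcases abs_cases (φ.symm (lp.single 1 n (1 : ℝ)) y) with h1 | h1
    · refine ⟨2 * n, ?_⟩
      rw [← hn, h1.1]
      have h2 : (-1 : ℝ) ^ (2 * n) = 1 := by rw [pow_mul]; simp
      have h3 : 2 * n / 2 = n := by omega
      simp [h2, h3]
    · refine ⟨2 * n + 1, ?_⟩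
      rw [← hn, h1.1]
      have h2 : (-1 : ℝ) ^ (2 * n + 1) = -1 := by rw [pow_succ, pow_mul]; simp
      have h3 : (2 * n + 1) / 2 = n := by omega
      simp [h2, h3]

end bdry

section polytope

variable {E : Type u} [NormedAddCommGroup E] [NormedSpace ℝ E]

/-- a unit ball which is given by finitely many inequalities has finitely many extreme points -/
theorem finite_extreme {N : ℕ} (g : Fin N → E →L[ℝ] ℝ)
    (h : ∀ x, ‖x‖ ≤ 1 ↔ ∀ i, |g i x| ≤ 1) :
    (Set.extremePoints ℝ (closedBall (0 : E) 1)).Finite := by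
  classical
  let p : E → Fin N → Bool × Bool := fun x i => (decide (g i x = 1), decide (g i x = -1))
  refine Set.Finite.of_injOn (f := p) (t := Set.univ) (fun _ _ => Set.mem_univ _) ?_
    Set.finite_univ
  intro x hx x' hx' hpp
  have hxb : ∀ i, |g i x| ≤ 1 := (h x).1 (by simpa using hx.1)
  set d := x' - x with hd
  have hact : ∀ i, |g i x| = 1 → g i d = 0 := by
    intro i hi
    have hpi := congrFun hpp i
    simp only [p, Prod.mk.injEq, decide_eq_decide] at hpi
    rcases (abs_eq zero_le_one).1 hi with h1 | h1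
    · have h2 := hpi.1.1 h1
      rw [hd, map_sub, h1, h2, sub_self]
    · have h2 := hpi.2.1 h1
      rw [hd, map_sub, h1, h2, sub_self]
  have hev : ∀ᶠ t in 𝓝[>] (0 : ℝ), ∀ i, |g i x| < 1 → |g i x| + t * |g i d| ≤ 1 := by
    rw [Filter.eventually_all]
    intro i
    by_cases hi : |g i x| < 1
    · have hc : Tendsto (fun t : ℝ => |g i x| + t * |g i d|) (𝓝[>] 0) (𝓝 (|g i x| + 0 * |g i d|)) :=
        tendsto_nhdsWithin_of_tendsto_nhds (Continuous.tendsto (by fun_prop) 0)
      have hlt : |g i x| + 0 * |g i d| < 1 := by simpa using hi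
      filter_upwards [hc.eventually_lt_const hlt] with t ht _
      exact ht.le
    · exact Eventually.of_forall fun t ht => absurd ht hi
  obtain ⟨t, ht, ht0⟩ := (hev.and self_mem_nhdsWithin).exists
  have ht0' : 0 < t := ht0
  have hball : ∀ s : ℝ, |s| = t → x + s • d ∈ closedBall (0 : E) 1 := by
    intro s hs
    rw [mem_closedBall_zero_iff, h]
    intro i
    rw [map_add, map_smul, smul_eq_mul]
    rcases lt_or_eq_of_le (hxb i) with hi | hi
    · refine (abs_add_le _ _).trans ?_
      rw [abs_mul, hs]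
      exact ht i hi
    · rw [hact i hi, mul_zero, add_zero]
      exact hxb i
  have h1 := hball t (abs_of_pos ht0')
  have h2 := hball (-t) (by rw [abs_neg, abs_of_pos ht0'])
  have hseg : x ∈ openSegment ℝ (x + t • d) (x + (-t) • d) := by
    refine ⟨1 / 2, 1 / 2, by norm_num, by norm_num, by norm_num, ?_⟩
    module
  have h3 := ((mem_extremePoints.1 hx).2 _ h1 _ h2 hseg).1
  have h4 : t • d = 0 := by simpa using h3
  rcases smul_eq_zero.1 h4 with h5 | h5
  · exact absurd h5 ht0'.ne'
  · rw [hd] at h5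
    exact (sub_eq_zero.1 h5).symm

/-- the unit ball of a finite dimensional space is the convex hull of its extreme points -/
theorem closedBall_eq [FiniteDimensional ℝ E]
    (h : (Set.extremePoints ℝ (closedBall (0 : E) 1)).Finite) :
    closedBall (0 : E) 1 = convexHull ℝ (Set.extremePoints ℝ (closedBall (0 : E) 1)) := by
  have : ProperSpace E := FiniteDimensional.proper ℝ E
  have h1 := closure_convexHull_extremePoints (isCompact_closedBall (0 : E) 1)
    (convex_closedBall (0 : E) 1)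
  have h2 : IsClosed (convexHull ℝ (Set.extremePoints ℝ (closedBall (0 : E) 1))) :=
    (h.isCompact_convexHull ℝ).isClosed
  rw [h2.closure_eq] at h1
  exact h1.symm

end polytope

section renorm

open PB.REN

variable {X : Type u} [NormedAddCommGroup X] [NormedSpace ℝ X]

/-- the new norm is polyhedral -/
theorem isPolyhedral_of_nn {Z : Type v} [NormedAddCommGroup Z] [NormedSpace ℝ Z]
    (f : ℕ → (X →L[ℝ] ℝ)) (hf : ∀ i, ‖f i‖ ≤ 1) (hb : ∀ x, ∃ i, f i x = ‖x‖)
    (e : X ≃L[ℝ] Z) (he : ∀ x, ‖e x‖ = nn f x) : IsPolyhedral Z := by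
  intro E hE
  have hprop : ProperSpace E := FiniteDimensional.proper ℝ E
  have hγ : ∀ z ∈ sphere (0 : E) 1, 0 < ‖(z : Z)‖ - ‖e.symm (z : Z)‖ := by
    intro z hz
    have hz1 : ‖(z : Z)‖ = 1 := by simpa using hz
    have hne : e.symm (z : Z) ≠ 0 := by
      intro h0
      have : (z : Z) = 0 := by simpa using h0
      rw [this, norm_zero] at hz1
      exact zero_ne_one hz1
    have h1 := lt_nn hf hb hne
    rw [← he, e.apply_symm_apply] at h1
    linarith
  have hcont : ContinuousOn (fun z : E => ‖(z : Z)‖ - ‖e.symm (z : Z)‖) (sphere (0 : E) 1) := by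
    apply Continuous.continuousOn
    exact (continuous_norm.comp continuous_subtype_val).sub
      (continuous_norm.comp (e.symm.continuous.comp continuous_subtype_val))
  obtain ⟨c, hc0, hc⟩ := (isCompact_sphere (0 : E) 1).exists_forall_le' hcont hγ
  obtain ⟨N, hN⟩ := exists_pow_lt_of_lt_one hc0 (show (1 / 2 : ℝ) < 1 by norm_num)
  let g : Fin N → E →L[ℝ] ℝ := fun i => (1 + (1 / 2 : ℝ) ^ ((i : ℕ) + 1)) •
    ((f i).comp ((e.symm : Z →L[ℝ] X).comp E.subtypeL))
  have hg : ∀ i (x : E), |g i x| = (1 + (1 / 2 : ℝ) ^ ((i : ℕ) + 1)) * |f i (e.symm (x : Z))| := by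
    intro i x
    have h1 : g i x = (1 + (1 / 2 : ℝ) ^ ((i : ℕ) + 1)) * f i (e.symm (x : Z)) := rfl
    rw [h1, abs_mul, abs_of_pos (by positivity)]
  have hnorm : ∀ x : E, ‖x‖ = nn f (e.symm (x : Z)) := by
    intro x
    rw [← he, e.apply_symm_apply]
    rfl
  have hiff : ∀ x : E, ‖x‖ ≤ 1 ↔ ∀ i, |g i x| ≤ 1 := by
    intro x
    constructor
    · intro hx i
      rw [hg]
      exact (le_nn hf i _).trans (by rw [← hnorm]; exact hx)
    · intro hx
      by_contra hlt
      push Not at hlt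
      set r := ‖x‖ with hr
      have hr0 : 0 < r := by linarith
      set z : E := r⁻¹ • x with hz
      have hz1 : ‖z‖ = 1 := by
        rw [hz, norm_smul, Real.norm_of_nonneg (inv_nonneg.2 hr0.le), ← hr]
        exact inv_mul_cancel₀ hr0.ne'
      have hcz : c ≤ ‖(z : Z)‖ - ‖e.symm (z : Z)‖ := hc z (by simpa using hz1)
      have hz1' : ‖(z : Z)‖ = 1 := hz1
      set M : ℝ := max r⁻¹ (1 - c + (1 / 2 : ℝ) ^ N) with hM
      have hM1 : M < 1 := by
        rw [hM]
        refine max_lt ?_ (by linarith)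
        exact inv_lt_one_of_one_lt₀ hlt
      have hle : nn f (e.symm (z : Z)) ≤ M := by
        refine ciSup_le fun i => ?_
        by_cases hi : i < N
        · have h1 := hx ⟨i, hi⟩
          rw [hg] at h1
          have h2 : e.symm ((z : E) : Z) = r⁻¹ • e.symm (x : Z) := by
            rw [hz, Submodule.coe_smul, map_smul]
          rw [h2, map_smul, smul_eq_mul, abs_mul, abs_of_pos (inv_pos.2 hr0)]
          calc (1 + (1 / 2 : ℝ) ^ (i + 1)) * (r⁻¹ * |f i (e.symm (x : Z))|)
              = r⁻¹ * ((1 + (1 / 2 : ℝ) ^ (i + 1)) * |f i (e.symm (x : Z))|) := by ring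
            _ ≤ r⁻¹ * 1 := mul_le_mul_of_nonneg_left h1 (inv_nonneg.2 hr0.le)
            _ = r⁻¹ := mul_one _
            _ ≤ M := le_max_left _ _
        · push Not at hi
          have h1 : |f i (e.symm (z : Z))| ≤ ‖e.symm (z : Z)‖ := abs_le_norm (hf i) _
          have h2 : (1 / 2 : ℝ) ^ (i + 1) ≤ (1 / 2 : ℝ) ^ N :=
            pow_le_pow_of_le_one (by norm_num) (by norm_num) (by omega)
          have h3 : ‖e.symm (z : Z)‖ ≤ 1 := by
            have := norm_nonneg (e.symm (z : Z))
            linarith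
          have h4 : (0 : ℝ) ≤ (1 / 2 : ℝ) ^ (i + 1) := by positivity
          calc (1 + (1 / 2 : ℝ) ^ (i + 1)) * |f i (e.symm (z : Z))|
              ≤ (1 + (1 / 2 : ℝ) ^ (i + 1)) * ‖e.symm (z : Z)‖ :=
                mul_le_mul_of_nonneg_left h1 (by positivity)
            _ = ‖e.symm (z : Z)‖ + (1 / 2 : ℝ) ^ (i + 1) * ‖e.symm (z : Z)‖ := by ring
            _ ≤ (1 - c) + (1 / 2 : ℝ) ^ N * 1 := by
                refine add_le_add (by linarith) ?_
                exact mul_le_mul h2 h3 (norm_nonneg _) (by positivity)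
            _ = 1 - c + (1 / 2 : ℝ) ^ N := by ring
            _ ≤ M := le_max_right _ _
      rw [← hnorm, hz1] at hle
      linarith
  have hfin := finite_extreme g hiff
  exact ⟨_, hfin, closedBall_eq hfin⟩

/-- spaces with a countable James boundary are isomorphically polyhedral -/
theorem CountableBoundary.exists_polyhedral [CompleteSpace X] (h : CountableBoundary X) :
    ∃ (Z : Type u) (_ : NormedAddCommGroup Z) (_ : NormedSpace ℝ Z),
      IsPolyhedral Z ∧ Nonempty (X ≃L[ℝ] Z) := by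
  obtain ⟨f, hf, hb⟩ := h
  have hzero : ∀ x : X, nn f x = 0 ↔ x = 0 := by
    intro x
    constructor
    · intro h
      by_contra hx
      have h1 := lt_nn hf hb hx
      have h2 : 0 ≤ ‖x‖ := norm_nonneg _
      linarith
    · intro h
      subst h
      have h1 := nn_smul hf 0 (0 : X)
      rwa [zero_smul, abs_zero, zero_mul] at h1
  let _ : Norm (Ren X) := ⟨fun x => nn f (x : X)⟩
  have hcore : NormedSpace.Core ℝ (Ren X) :=
    { norm_nonneg := fun x => nn_nonneg hf (X := X) x
      norm_smul := fun c x => nn_smul hf (X := X) c x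
      norm_triangle := fun x y => nn_add hf (X := X) x y
      norm_eq_zero_iff := fun x => hzero x }
  let _ : NormedAddCommGroup (Ren X) := NormedAddCommGroup.ofCore hcore
  let _ : NormedSpace ℝ (Ren X) := NormedSpace.ofCore hcore
  let e0 : X ≃ₗ[ℝ] Ren X := LinearEquiv.refl ℝ X
  let e : X ≃L[ℝ] Ren X := e0.toContinuousLinearEquivOfBounds 2 1
    (fun x => nn_le hf x) (fun x => by rw [one_mul]; exact norm_le_nn hf hb _)
  exact ⟨Ren X, inferInstance, inferInstance,
    isPolyhedral_of_nn f hf hb e fun _ => rfl, ⟨e⟩⟩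

end renorm

section final

/-- subspaces of isometric preduals of `ℓ₁` are isomorphically polyhedral -/
theorem exists_polyhedral_of_embeds (X : Type u) [NormedAddCommGroup X] [NormedSpace ℝ X]
    [CompleteSpace X] (Y : Type) [NormedAddCommGroup Y] [NormedSpace ℝ Y] [CompleteSpace Y]
    (hY : IsIsometricPredual Y) (hX : IsomorphicToSubspace X Y) :
    ∃ (Z : Type u) (_ : NormedAddCommGroup Z) (_ : NormedSpace ℝ Z),
      IsPolyhedral Z ∧ Nonempty (X ≃L[ℝ] Z) := by
  obtain ⟨T, hinj, hcl, -⟩ := hX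
  let W : Submodule ℝ Y := LinearMap.range (T : X →ₗ[ℝ] Y)
  have hWcl : IsClosed (W : Set Y) := by
    have : (W : Set Y) = Set.range T := LinearMap.coe_range _
    rw [this]
    exact hcl
  have hWc : CompleteSpace W := hWcl.completeSpace_coe
  let eW : X ≃L[ℝ] W := T.equivRange hinj hcl
  have hWb : CountableBoundary W :=
    hY.countableBoundary.of_isometry W.subtypeₗᵢ
  have hU : CountableBoundary (ULift.{u} W) :=
    hWb.of_isometry (LinearIsometryEquiv.ulift ℝ W).toLinearIsometry
  have hUc : CompleteSpace (ULift.{u} W) :=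
    ((LinearIsometryEquiv.ulift ℝ W).isometry.isUniformInducing.completeSpace_congr
      (LinearIsometryEquiv.ulift ℝ W).surjective).2 hWc
  obtain ⟨Z, _, _, hZ, ⟨e⟩⟩ := hU.exists_polyhedral
  exact ⟨Z, inferInstance, inferInstance, hZ,
    ⟨(eW.trans (LinearIsometryEquiv.ulift ℝ W).symm.toContinuousLinearEquiv).trans e⟩⟩

/-- isomorphically polyhedral spaces embed -/
theorem embeds_of_iso (X Z : Type u) [NormedAddCommGroup X] [NormedSpace ℝ X]
    [CompleteSpace X] [TopologicalSpace.SeparableSpace X] [NormedAddCommGroup Z] [NormedSpace ℝ Z]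
    (hZ : IsPolyhedral Z) (e : X ≃L[ℝ] Z) :
    ∃ (Y : Type) (_ : NormedAddCommGroup Y) (_ : NormedSpace ℝ Y) (_ : CompleteSpace Y),
      IsIsometricPredual Y ∧ IsomorphicToSubspace X Y := by
  have hcomp : CompleteSpace Z :=
    (e.isUniformEmbedding.completeSpace_congr e.surjective).1 inferInstance
  have hsep : TopologicalSpace.SeparableSpace Z :=
    e.surjective.denseRange.separableSpace e.continuous
  obtain ⟨Y, _, _, _, hY, T, hinj, hcl, C, hC⟩ := embeds_of_isPolyhedral Z hZ
  refine ⟨Y, inferInstance, inferInstance, inferInstance, hY, T.comp (e : X →L[ℝ] Z),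
    hinj.comp e.injective, ?_, ‖(e.symm : Z →L[ℝ] X)‖ * C, fun x => ?_⟩
  · have h1 : Set.range (T.comp (e : X →L[ℝ] Z)) = Set.range T := by
      rw [ContinuousLinearMap.coe_comp, ContinuousLinearEquiv.coe_coe]
      exact e.surjective.range_comp T
    rw [h1]
    exact hcl
  · have h1 := (e.symm : Z →L[ℝ] X).le_opNorm (e x)
    have h2 := hC (e x)
    have h3 : (e.symm : Z →L[ℝ] X) (e x) = x := by simp
    rw [h3] at h1
    calc ‖x‖ ≤ ‖(e.symm : Z →L[ℝ] X)‖ * ‖e x‖ := h1
      _ ≤ ‖(e.symm : Z →L[ℝ] X)‖ * (C * ‖T (e x)‖) :=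
          mul_le_mul_of_nonneg_left h2 (norm_nonneg _)
      _ = ‖(e.symm : Z →L[ℝ] X)‖ * C * ‖(T.comp (e : X →L[ℝ] Z)) x‖ := by
          rw [mul_assoc]; rfl

end final

end PolyPre
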