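import Mathlib

/-!
# Polyhedral Banach spaces and isometric preduals of `ℓ₁`: definitions

All spaces are real.
-/

set_option autoImplicit false

universe u v

namespace PolyPre

/-- The normed space `X` is polyhedral: the closed unit ball of every finite dimensional subspace
is a polytope, that is, the convex hull of finitely many points. -/
def IsPolyhedral (X : Type u) [NormedAddCommGroup X] [NormedSpace ℝ X] : Prop :=
  ∀ F : Submodule ℝ X, FiniteDimensional ℝ F →
    ∃ s : Set F, s.Finite ∧ Metric.closedBall (0 : F) 1 = convexHull ℝ s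

/-- `Y` is an isometric predual of `ℓ₁`: the dual space of `Y`, with the dual norm, is
isometrically isomorphic to `ℓ₁`. -/
def IsIsometricPredual (Y : Type u) [NormedAddCommGroup Y] [NormedSpace ℝ Y] : Prop :=
  Nonempty ((Y →L[ℝ] ℝ) ≃ₗᵢ[ℝ] lp (fun _ : ℕ => ℝ) 1)

/-- `X` is isomorphic to a subspace of `Y`: there is an injective bounded linear operator
`T : X → Y` with closed range such that the inverse `T(X) → X` is bounded. -/
def IsomorphicToSubspace (X : Type u) (Y : Type v) [NormedAddCommGroup X] [NormedSpace ℝ X]
    [NormedAddCommGroup Y] [NormedSpace ℝ Y] : Prop :=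
  ∃ T : X →L[ℝ] Y, Function.Injective T ∧ IsClosed (Set.range T) ∧
    ∃ C : ℝ, ∀ x : X, ‖x‖ ≤ C * ‖T x‖

end PolyPre
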